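import Pool.Agent.Lib.MP_688fd0_co.MET.Base

/-!
MET, module SIZE (helper88): a finite group with commutative commutator subgroup, generated by at most `d`
elements of exponent `r` whose commutators have exponent `m`, has bounded order.
-/

set_option autoImplicit false

namespace Pool.Agent.Lib.MP_688fd0_co.MET

/-- A commutative group generated by a finite family of elements of exponent `r`. -/
theorem card_le_of_gen {H : Type*} [CommGroup H] {ι : Type*} [Fintype ι] (g : ι → H) (r : ℕ) (hr : 0 < r)
    (hg : ∀ i, g i ^ r = 1) (hc : Subgroup.closure (Set.range g) = ⊤) :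
    Nat.card H ≤ r ^ Fintype.card ι := by
  classical
  have hform : ∀ x : H, ∃ f : ι → ℤ, x = ∏ i, g i ^ f i := by
    intro x
    have hx : x ∈ Subgroup.closure (Set.range g) := hc ▸ Subgroup.mem_top x
    induction hx using Subgroup.closure_induction with
    | mem y hy =>
      obtain ⟨i, rfl⟩ := hy
      refine ⟨Pi.single i 1, ?_⟩
      rw [Finset.prod_eq_single i]
      · simp
      · intro j _ hj
        rw [Pi.single_eq_of_ne hj, zpow_zero]
      · intro h
        exact absurd (Finset.mem_univ i) h
    | one => exact ⟨0, by simp⟩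
    | mul y z _ _ hy hz =>
      obtain ⟨f, rfl⟩ := hy
      obtain ⟨f', rfl⟩ := hz
      exact ⟨f + f', by simp [zpow_add, Finset.prod_mul_distrib]⟩
    | inv y _ hy =>
      obtain ⟨f, rfl⟩ := hy
      exact ⟨-f, by simp [zpow_neg, Finset.prod_inv_distrib]⟩
  have hr0 : (r : ℤ) ≠ 0 := by exact_mod_cast hr.ne'
  let F : (ι → Fin r) → H := fun f => ∏ i, g i ^ (f i : ℕ)
  have hF : Function.Surjective F := by
    intro x
    obtain ⟨f, rfl⟩ := hform x
    have hlt : ∀ i, (f i % (r : ℤ)).toNat < r := by
      intro i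
      have h1 := Int.emod_nonneg (f i) hr0
      have h2 := Int.emod_lt_of_pos (f i) (show (0 : ℤ) < r by exact_mod_cast hr)
      omega
    refine ⟨fun i => ⟨(f i % (r : ℤ)).toNat, hlt i⟩, ?_⟩
    refine Finset.prod_congr rfl fun i _ => ?_
    have h1 := Int.emod_nonneg (f i) hr0
    have h2 : ((f i % (r : ℤ)).toNat : ℤ) = f i % (r : ℤ) := Int.toNat_of_nonneg h1
    have h3 : g i ^ ((f i % (r : ℤ)).toNat : ℤ) = g i ^ f i := by
      rw [h2]
      conv_rhs => rw [← Int.emod_add_mul_ediv (f i) (r : ℤ)]
      rw [zpow_add, zpow_mul, zpow_natCast, hg i, one_zpow, mul_one]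
    rw [← h3, zpow_natCast]
  calc Nat.card H ≤ Nat.card (ι → Fin r) := Nat.card_le_card_of_surjective F hF
    _ = r ^ Fintype.card ι := by simp

theorem size : SizeStatement := by
  intro d r m hr hm
  refine ⟨r ^ d * m ^ (r ^ d * (d * d)), ?_⟩
  intro G _ _ A hK hA hd hAr hAm
  classical
  have : Fintype A := Fintype.ofFinite A
  have hcA : Fintype.card A ≤ d := by rwa [← Nat.card_eq_fintype_card]
  -- the quotient
  have hQ : Nat.card (Abelianization G) ≤ r ^ d := by
    have h1 := card_le_of_gen (H := Abelianization G) (fun a : A => Abelianization.of (a : G)) r hr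
      (fun a => by rw [← map_pow, hAr a.1 a.2, map_one]) (by
        have h2 : Set.range (fun a : A => Abelianization.of (a : G)) = (Abelianization.of : G →* _) '' A := by
          ext x
          simp
        rw [h2, ← MonoidHom.map_closure, hA]
        rw [← MonoidHom.range_eq_map]
        exact MonoidHom.range_eq_top.2 (QuotientGroup.mk'_surjective _))
    exact h1.trans (Nat.pow_le_pow_right hr hcA)
  -- conjugates of the commutators
  let K := commutator G
  let T : Abelianization G × A × A → K := fun t =>
    ⟨t.1.out * (t.2.1.1 * t.2.2.1 * t.2.1.1⁻¹ * t.2.2.1⁻¹) * t.1.out⁻¹, by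
      have h0 : (t.2.1.1 * t.2.2.1 * t.2.1.1⁻¹ * t.2.2.1⁻¹ : G) ∈ commutator G :=
        Subgroup.commutator_mem_commutator (Subgroup.mem_top _) (Subgroup.mem_top _)
      exact (inferInstance : (commutator G).Normal).conj_mem _ h0 _⟩
  let _ : CommGroup K := { (inferInstance : Group K) with
    mul_comm := fun x y => Subtype.ext (hK x.1 x.2 y.1 y.2) }
  have : Fintype (Abelianization G) := Fintype.ofFinite _
  have hKc : Nat.card K ≤ m ^ (r ^ d * (d * d)) := by
    have h1 := card_le_of_gen (H := K) T m hm (by
      rintro ⟨q, a, b⟩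
      apply Subtype.ext
      change (q.out * (a.1 * b.1 * a.1⁻¹ * b.1⁻¹) * q.out⁻¹) ^ m = 1
      rw [conj_pow, hAm a.1 a.2 b.1 b.2, mul_one, mul_inv_cancel]) (by
      -- every conjugate is a value of T
      have hC : ∀ (g : G) (a b : A), g * (a.1 * b.1 * a.1⁻¹ * b.1⁻¹) * g⁻¹ =
          (T (Abelianization.of g, a, b) : G) := by
        intro g a b
        change _ = (Abelianization.of g).out * (a.1 * b.1 * a.1⁻¹ * b.1⁻¹) * (Abelianization.of g).out⁻¹
        set h : G := (Abelianization.of g).out with hh
        have h1 : h⁻¹ * g ∈ commutator G := by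
          have h2 : (QuotientGroup.mk h : G ⧸ commutator G) = QuotientGroup.mk g := by
            rw [hh]
            exact QuotientGroup.out_eq' _
          exact QuotientGroup.eq.1 h2
        have h0 : (a.1 * b.1 * a.1⁻¹ * b.1⁻¹ : G) ∈ commutator G :=
          Subgroup.commutator_mem_commutator (Subgroup.mem_top _) (Subgroup.mem_top _)
        have h3 := hK _ h1 _ h0
        have h4 : g = h * (h⁻¹ * g) := by group
        calc g * (a.1 * b.1 * a.1⁻¹ * b.1⁻¹) * g⁻¹
            = h * ((h⁻¹ * g) * (a.1 * b.1 * a.1⁻¹ * b.1⁻¹)) * (h⁻¹ * g)⁻¹ * h⁻¹ := by group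
          _ = h * ((a.1 * b.1 * a.1⁻¹ * b.1⁻¹) * (h⁻¹ * g)) * (h⁻¹ * g)⁻¹ * h⁻¹ := by rw [h3]
          _ = h * (a.1 * b.1 * a.1⁻¹ * b.1⁻¹) * h⁻¹ := by group
      let S : Set G := {c | ∃ a ∈ A, ∃ b ∈ A, c = a * b * a⁻¹ * b⁻¹}
      have hNle : commutator G ≤ Subgroup.normalClosure S := by
        let π := QuotientGroup.mk' (Subgroup.normalClosure S)
        have hab : ∀ a ∈ A, ∀ b ∈ A, π a * π b = π b * π a := by
          intro a ha b hb
          have h1 : π (a * b * a⁻¹ * b⁻¹) = 1 :=
            (QuotientGroup.eq_one_iff _).2 (Subgroup.subset_normalClosure ⟨a, ha, b, hb, rfl⟩)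
          rw [map_mul, map_mul, map_mul, map_inv, map_inv] at h1
          have h2 := mul_inv_eq_one.1 h1
          rw [mul_inv_eq_iff_eq_mul] at h2
          exact h2
        have hstep : ∀ x : G, (∀ a ∈ A, π a * π x = π x * π a) → ∀ y : G, π y * π x = π x * π y := by
          intro x hx y
          have hy : y ∈ Subgroup.closure A := hA ▸ Subgroup.mem_top y
          have hle : Subgroup.closure A ≤ (Subgroup.centralizer {π x}).comap π := by
            rw [Subgroup.closure_le]
            intro a ha
            rw [SetLike.mem_coe, Subgroup.mem_comap, Subgroup.mem_centralizer_singleton_iff]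
            exact hx a ha
          have h3 := hle hy
          rw [Subgroup.mem_comap, Subgroup.mem_centralizer_singleton_iff] at h3
          exact h3
        have hall : ∀ x y : G, π y * π x = π x * π y :=
          fun x => hstep x fun a ha => (hstep a (fun b hb => hab b hb a ha) x).symm
        refine Subgroup.commutator_le.2 ?_
        intro x _ y _
        refine (QuotientGroup.eq_one_iff _).1 ?_
        change π (x * y * x⁻¹ * y⁻¹) = 1
        rw [map_mul, map_mul, map_mul, map_inv, map_inv, hall y x]
        group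
      have hle : Subgroup.normalClosure S ≤ (Subgroup.closure (Set.range T)).map K.subtype := by
        rw [Subgroup.normalClosure, Subgroup.closure_le]
        intro x hx
        obtain ⟨s, ⟨a, ha, b, hb, rfl⟩, hsx⟩ := Group.mem_conjugatesOfSet_iff.1 hx
        obtain ⟨g, rfl⟩ := isConj_iff.1 hsx
        have h5 := hC g ⟨a, ha⟩ ⟨b, hb⟩
        refine ⟨T (Abelianization.of g, ⟨a, ha⟩, ⟨b, hb⟩), Subgroup.subset_closure ⟨_, rfl⟩, ?_⟩
        exact h5.symm
      rw [eq_top_iff]
      intro x _
      obtain ⟨y, hy, hyx⟩ := hle (hNle x.2)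
      have : y = x := Subtype.ext hyx
      rwa [← this])
    refine h1.trans (Nat.pow_le_pow_right hm ?_)
    rw [Fintype.card_prod, Fintype.card_prod]
    refine Nat.mul_le_mul ?_ (Nat.mul_le_mul hcA hcA)
    rwa [← Nat.card_eq_fintype_card]
  rw [← Subgroup.index_mul_card (commutator G)]
  exact Nat.mul_le_mul hQ hKc

end Pool.Agent.Lib.MP_688fd0_co.MET
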